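import Mathlib
import Pool.Agent.H345R3.HomP

/-!
A semisimple regular amenable commutative Banach algebra without the homomorphism property.
-/

set_option autoImplicit false

namespace Pool.Agent.Results.MP_8222c7_an.SemisimpleFails

open H611R4 H611R3.ZL

/-- **The homomorphism property fails for a semisimple amenable algebra.**

There is a unital commutative complex Banach algebra `A` which is amenable, semisimple (its
characters separate its points; in particular it is not radical) and regular on its spectrum, and
for which the homomorphism property fails: there are a commutative Banach algebra `B` (even unital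
and amenable), a continuous surjective homomorphism `φ : A → B` and a continuous homomorphism
`ψ : A → B` (of the form `a ↦ ω(a) 1` with a character `ω` of `A`) such that `φ(a) - ψ(a)` lies in
the Jacobson radical of `B` for every `a`, but `φ ≠ ψ`. -/
theorem result : ∃ (A : Type) (_ : NormedCommRing A) (_ : NormedAlgebra ℂ A),
    CompleteSpace A ∧ Semisimple A ∧ Regular A ∧ Amenable A ∧
    ∃ (B : Type) (_ : NormedCommRing B) (_ : NormedAlgebra ℂ B),
      CompleteSpace B ∧ Amenable B ∧
      ∃ (φ ψ : A →ₐ[ℂ] B), Continuous φ ∧ Continuous ψ ∧ Function.Surjective φ ∧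
        (∃ ω : A →ₐ[ℂ] ℂ, ∀ a, ψ a = algebraMap ℂ B (ω a)) ∧
        (∀ a, φ a - ψ a ∈ Ideal.jacobson (⊥ : Ideal B)) ∧ φ ≠ ψ :=
  Pool.Agent.H345R3.HomP.main

end Pool.Agent.Results.MP_8222c7_an.SemisimpleFails
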